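import Mathlib

set_option autoImplicit false

namespace Pool.Agent.Results.MP_674d90_lc.Safety

section
variable {C V : Type}

/-- `l` is a path of edges of `E` from `u` to `v`. -/
def Path (E : Set (V × C × V)) (u : V) (l : List (V × C × V)) (v : V) : Prop :=
  (∀ e ∈ l, e ∈ E) ∧ l.map (·.1) ++ [v] = u :: l.map (·.2.2)

/-- `S` picks an outgoing edge of the last node of every path ending in `P`. -/
def Strat (P : Set V) (E : Set (V × C × V)) (S : V → List (V × C × V) → V × C × V) : Prop :=
  ∀ u l v, Path E u l v → v ∈ P → S u l ∈ E ∧ (S u l).1 = v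

/-- `e` is an infinite play from `u` consistent with `S`. -/
def Play (P : Set V) (E : Set (V × C × V)) (S : V → List (V × C × V) → V × C × V) (u : V)
    (e : ℕ → V × C × V) : Prop :=
  (e 0).1 = u ∧ ∀ i, e i ∈ E ∧ (e i).2.2 = (e (i + 1)).1 ∧
    ((e i).1 ∈ P → e i = S u ((List.range i).map e))

def Wins (W : Set (ℕ → C)) (P : Set V) (E : Set (V × C × V))
    (S : V → List (V × C × V) → V × C × V) (u : V) : Prop :=
  ∀ e, Play P E S u e → (fun i => (e i).2.1) ∈ W

end

/-- In every arena Protagonist has an optimal strategy built on a memory structure with `k`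
states, which is chromatic if `chr` holds. -/
def Mem {C : Type} (W : Set (ℕ → C)) (k : ℕ) (chr : Prop) : Prop :=
  ∀ (V : Type) [Finite V] [Nonempty V] (P : Set V) (E : Set (V × C × V)),
    (∀ v, ∃ e ∈ E, e.1 = v) →
    ∃ (S : V → List (V × C × V) → V × C × V) (m : Fin k) (δ : Fin k → V × C × V → Fin k),
      Strat P E S ∧ (chr → ∀ x, ∀ e ∈ E, ∀ e' ∈ E, e.2.1 = e'.2.1 → δ x e = δ x e') ∧
      (∀ u l u' l' v, Path E u l v → Path E u' l' v → v ∈ P → l.foldl δ m = l'.foldl δ m →
        S u l = S u' l') ∧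
      ∀ u, (∃ S', Strat P E S' ∧ Wins W P E S' u) → Wins W P E S u

inductive Q
  | dead
  | top
  | lv (n : ℕ) (b : Fin 2)

open Classical in
noncomputable def step : Q → Fin 5 → Q
  | .dead, _ => .dead
  | .top, _ => .top
  | .lv n b, c => if c = 0 then .lv (n + 1) b else if c = 1 then
      (if n = 0 then .dead else .lv (n - 1) b) else if c = 2 then
      .lv n (if ∃ j, n = 2 ^ j then 1 else 0) else
      if n = 0 ∧ c.val ≠ b.val + 3 then .dead else .top

def le : Q → Q → Prop
  | .dead, _ => True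
  | _, .top => True
  | .lv n b, .lv m c => n < m ∨ (n = m ∧ b = c)
  | _, _ => False

lemma le_rfl' (q : Q) : le q q := by cases q <;> simp [le]

lemma le_tr {p q r : Q} (h : le p q) (k : le q r) : le p r := by
  cases p <;> cases q <;> cases r <;> simp [le] at * <;> omega

lemma step_mono {p q : Q} (h : le p q) (c : Fin 5) : le (step p c) (step q c) := by
  cases p <;> cases q <;> simp only [le, step] at h ⊢
  · split_ifs <;> simp [le]
  · rcases h with h | ⟨rfl, rfl⟩
    · split_ifs <;> simp [le] <;> omega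
    · exact le_rfl' _

noncomputable def run (x : ℕ → Fin 5) (n : ℕ) : Q := ((List.range n).map x).foldl step (.lv 0 0)

lemma run_succ (x : ℕ → Fin 5) (n : ℕ) : run x (n + 1) = step (run x n) (x n) := by
  simp [run, List.range_succ]

def W : Set (ℕ → Fin 5) := {x | ∀ n, run x n ≠ .dead}

section
variable {C V : Type} {P : Set V} {E : Set (V × C × V)} {S : V → List (V × C × V) → V × C × V}

def last (u : V) (l : List (V × C × V)) : V := (u :: l.map (·.2.2)).getLast (by simp)

lemma Path.last {u v : V} {l : List (V × C × V)} (h : Path E u l v) : last u l = v := by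
  unfold Safety.last
  simp only [← h.2]
  simp

lemma Path.snoc {u : V} {l : List (V × C × V)} {e : V × C × V} (h : Path E u l e.1)
    (he : e ∈ E) : Path E u (l ++ [e]) e.2.2 := by
  refine ⟨fun x hx => ?_, ?_⟩
  · rcases List.mem_append.1 hx with a | a
    · exact h.1 x a
    · rwa [List.mem_singleton.1 a]
  · simp only [List.map_append, List.map_cons, List.map_nil, h.2, List.cons_append]

lemma path_of {e : ℕ → V × C × V} (h : ∀ i, e i ∈ E ∧ (e i).2.2 = (e (i + 1)).1) (n : ℕ) :
    Path E (e 0).1 ((List.range n).map e) (e n).1 := by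
  induction n with
  | zero => simp [Path]
  | succ n ih => rw [List.range_succ, List.map_append, ← (h n).2]; exact ih.snoc (h n).1

lemma Play.path {u : V} {e : ℕ → V × C × V} (h : Play P E S u e) (n : ℕ) :
    Path E u ((List.range n).map e) (e n).1 :=
  h.1 ▸ path_of (fun i => ⟨(h.2 i).1, (h.2 i).2.1⟩) n

lemma extend (hE : ∀ v, ∃ e ∈ E, e.1 = v) (hS : Strat P E S) (u : V) (n : ℕ)
    (e : ℕ → V × C × V) (h : ∀ i < n, e i ∈ E ∧ Path E u ((List.range i).map e) (e i).1 ∧
      ((e i).1 ∈ P → e i = S u ((List.range i).map e))) :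
    ∃ e', Play P E S u e' ∧ ∀ i < n, e' i = e i := by
  classical
  choose o o1 o2 using hE
  let g : ℕ → List (V × C × V) → V × C × V := fun i l =>
    if i < n then e i else if last u l ∈ P then S u l else o (last u l)
  let L : ℕ → List (V × C × V) := fun i => Nat.rec [] (fun i l => l ++ [g i l]) i
  have hL : ∀ i, (List.range i).map (fun i => g i (L i)) = L i := fun i => by
    induction i with
    | zero => rfl
    | succ i ih => rw [List.range_succ, List.map_append, ih]; rfl
  have hn : ∀ i < n, g i (L i) = e i := fun i hi => if_pos hi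
  have hn' : ∀ i < n, L i = (List.range i).map e := fun i hi => by
    rw [← hL]
    exact List.map_congr_left fun j hj => hn j ((List.mem_range.1 hj).trans hi)
  have st : ∀ i v, Path E u (L i) v → g i (L i) ∈ E ∧ (g i (L i)).1 = v ∧
      (v ∈ P → g i (L i) = S u (L i)) := fun i v hp => by
    by_cases hi : i < n
    · obtain ⟨a, b, c⟩ := h i hi
      rw [← hn' i hi] at b c
      have := b.last.symm.trans hp.last
      rw [hn i hi]
      exact ⟨a, this, fun k => c (this ▸ k)⟩
    · simp only [g, if_neg hi, hp.last]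
      split_ifs with c
      · exact ⟨(hS _ _ _ hp c).1, (hS _ _ _ hp c).2, fun _ => rfl⟩
      · exact ⟨o1 _, o2 _, fun k => absurd k c⟩
  have pa : ∀ i, Path E u (L i) (g i (L i)).1 := fun i => by
    induction i with
    | zero =>
      have : Path E u (L 0) u := ⟨by simp [L], rfl⟩
      rw [(st 0 u this).2.1]; exact this
    | succ i ih =>
      have : Path E u (L (i + 1)) (g i (L i)).2.2 := ih.snoc (st i _ ih).1
      rw [(st _ _ this).2.1]; exact this
  refine ⟨fun i => g i (L i), ⟨?_, fun i => ⟨(st i _ (pa i)).1, ?_, fun c => ?_⟩⟩, hn⟩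
  · simpa [L] using (pa 0).2
  · exact (st (i + 1) _ ((pa i).snoc (st i _ (pa i)).1)).2.1.symm
  · rw [hL]; exact (st i _ (pa i)).2.2 c

end

def Inv {V : Type} (P : Set V) (E : Set (V × Fin 5 × V)) (Y : V → Q → Prop) : Prop :=
  ∀ v q, Y v q → q ≠ .dead ∧ (v ∈ P → ∃ e ∈ E, e.1 = v ∧ Y e.2.2 (step q e.2.1)) ∧
    (v ∉ P → ∀ e ∈ E, e.1 = v → Y e.2.2 (step q e.2.1))

theorem gen : Mem W 2 False := by
  classical
  intro V _ _ P E hE
  let X : V → Q → Prop := fun v q => ∃ Y, Inv P E Y ∧ Y v q
  have hX : Inv P E X := by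
    rintro v q ⟨Y, hY, h⟩
    obtain ⟨a, b, c⟩ := hY v q h
    refine ⟨a, fun k => ?_, fun k e h1 h2 => ⟨Y, hY, c k e h1 h2⟩⟩
    obtain ⟨e, h1, h2, h3⟩ := b k
    exact ⟨e, h1, h2, Y, hY, h3⟩
  obtain ⟨μ, μ1, μ2⟩ : ∃ μ : V → Fin 2 → Q, (∀ v q, ∃ m, X v q → X v (μ v m) ∧ le (μ v m) q) ∧
      ∀ v, X v (.lv 0 0) → μ v 0 = .lv 0 0 := by
    refine ⟨fun v m => if h : ∃ n b, X v (.lv n b) then .lv (Nat.find h) m else .top,
      fun v q => ?_, fun v h => ?_⟩
    · by_cases h : ∃ n b, X v (.lv n b)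
      · simp only [dif_pos h]
        obtain ⟨b, hb⟩ := Nat.find_spec h
        rcases q with _ | _ | ⟨n, c⟩
        · exact ⟨0, fun k => absurd rfl (hX _ _ k).1⟩
        · exact ⟨b, fun _ => ⟨hb, trivial⟩⟩
        · by_cases k : Nat.find h = n
          · exact ⟨c, fun a => by rw [k]; exact ⟨a, le_rfl' _⟩⟩
          · exact ⟨b, fun a => ⟨hb, .inl (lt_of_le_of_ne (Nat.find_min' h ⟨c, a⟩) k)⟩⟩
      · simp only [dif_neg h]
        rcases q with _ | _ | ⟨n, c⟩
        · exact ⟨0, fun k => absurd rfl (hX _ _ k).1⟩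
        · exact ⟨0, fun k => ⟨k, trivial⟩⟩
        · exact ⟨0, fun k => absurd ⟨n, c, k⟩ h⟩
    · have h' : ∃ n b, X v (.lv n b) := ⟨0, 0, h⟩
      simp only [dif_pos h', (Nat.find_eq_zero h').2 ⟨0, h⟩]
  choose d hd using μ1
  have : ∀ v q, ∃ e, e ∈ E ∧ e.1 = v ∧ (v ∈ P → X v q → X e.2.2 (step q e.2.1)) := fun v q => by
    by_cases k : v ∈ P ∧ X v q
    · obtain ⟨e, a, b, c⟩ := (hX v q k.2).2.1 k.1
      exact ⟨e, a, b, fun _ _ => c⟩
    · obtain ⟨e, a, b⟩ := hE v
      exact ⟨e, a, b, fun x y => absurd ⟨x, y⟩ k⟩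
  choose σ σ1 σ2 σ3 using this
  let δ : Fin 2 → V × Fin 5 × V → Fin 2 := fun m e => d e.2.2 (step (μ e.1 m) e.2.1)
  refine ⟨fun u l => σ (last u l) (μ (last u l) (l.foldl δ 0)), 0, δ,
    fun u l v h _ => ⟨σ1 _ _, (σ2 _ _).trans h.last⟩, False.elim,
    fun u l u' l' v h h' _ c => by simp only [h.last, h'.last, c], ?_⟩
  rintro u ⟨S, hS, hw⟩ e he
  have x0 : X u (.lv 0 0) := by
    refine ⟨fun v q => ∃ e n, Play P E S u e ∧ (e n).1 = v ∧ run (fun i => (e i).2.1) n = q,
      ?_, ?_⟩
    · rintro _ _ ⟨e, n, h, rfl, rfl⟩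
      refine ⟨hw e h n, fun _ => ⟨e n, (h.2 n).1, rfl, e, n + 1, h, (h.2 n).2.1.symm,
        run_succ _ _⟩, fun k x h1 h2 => ?_⟩
      have hm : ∀ i ≤ n, (List.range i).map (Function.update e n x) = (List.range i).map e :=
        fun i hi => List.map_congr_left fun j hj =>
          Function.update_of_ne (by have := List.mem_range.1 hj; omega) _ _
      obtain ⟨e', p, q⟩ := extend hE hS u (n + 1) (Function.update e n x) fun i hi => by
        rw [hm i (by omega)]
        by_cases c : i = n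
        · subst c
          rw [Function.update_self, h2]
          exact ⟨h1, h.path i, fun a => absurd a k⟩
        · rw [Function.update_of_ne c]
          exact ⟨(h.2 i).1, h.path i, (h.2 i).2.2⟩
      have qn : e' n = x := (q n (by omega)).trans (Function.update_self ..)
      refine ⟨e', n + 1, p, by rw [← (p.2 n).2.1, qn], ?_⟩
      rw [run_succ, qn]
      congr 1
      unfold run
      congr 1
      refine List.map_congr_left fun j hj => ?_
      have := List.mem_range.1 hj
      rw [q j (by omega), Function.update_of_ne (by omega)]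
    · obtain ⟨e', p, -⟩ := extend hE hS u 0 e (by simp)
      exact ⟨e', 0, p, p.1, rfl⟩
  have inv : ∀ n, X (e n).1 (μ (e n).1 (((List.range n).map e).foldl δ 0)) ∧
      le (μ (e n).1 (((List.range n).map e).foldl δ 0)) (run (fun i => (e i).2.1) n) := by
    intro n
    induction n with
    | zero =>
      rw [he.1, show ((List.range 0).map e).foldl δ 0 = 0 from rfl, μ2 u x0]
      exact ⟨x0, le_rfl' _⟩
    | succ n ih =>
      rw [List.range_succ, List.map_append, List.foldl_append, run_succ, ← (he.2 n).2.1]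
      have := (he.2 n).2.2
      simp only [(he.path n).last] at this
      generalize ((List.range n).map e).foldl δ 0 = m at ih this
      have k : X (e n).2.2 (step (μ (e n).1 m) (e n).2.1) := by
        by_cases c : (e n).1 ∈ P
        · have a := σ3 _ _ c ih.1
          rwa [← this c] at a
        · exact (hX _ _ ih.1).2.2 c _ (he.2 n).1 rfl
      exact ⟨(hd _ _ k).1, le_tr (hd _ _ k).2 (step_mono ih.2 _)⟩
  intro n c
  have := inv n
  rw [c] at this
  have a := (hX _ _ this.1).1
  have b := this.2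
  generalize μ (e n).1 _ = q at a b
  cases q <;> simp [le] at a b

def col (t : Fin 2 → ℕ) (N : ℕ) (c : Fin 2) (j : ℕ) : Fin 5 :=
  if j ≤ N then (if j = t c then 2 else 0) else if j ≤ 2 * N then 1 else ⟨c.val + 3, by omega⟩

def T (t : Fin 2 → ℕ) (N : ℕ) (b c : Fin 2) (m : ℕ) : Q :=
  if m ≤ t b then .lv m 0 else if m ≤ N + 1 then .lv (m - 1) b else
    if m ≤ 2 * N + 1 then .lv (2 * N + 1 - m) b else if b = c then .top else .dead

lemma run_eq {t : Fin 2 → ℕ} {N : ℕ} (h0 : ¬∃ j, t 0 = 2 ^ j) (h1 : ∃ j, t 1 = 2 ^ j)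
    (ht : ∀ b, t b ≤ N) (b c : Fin 2) (x : ℕ → Fin 5)
    (hx : ∀ j ≤ 2 * N + 1, x j = col t N (if j ≤ N then b else c) j) (m : ℕ) :
    run x m = T t N b c m := by
  have hb := ht b
  induction m with
  | zero => simp [run, T]
  | succ m ih =>
    rw [run_succ, ih]
    rcases lt_trichotomy m (t b) with h | h | h
    · rw [hx m (by omega)]
      simp [T, col, step, h.le, h.ne, Nat.succ_le_of_lt h, show m ≤ N by omega]
    · rw [hx m (by omega)]
      subst h
      simp only [T, col, hb, if_true, le_refl, Nat.add_le_add_iff_right, step,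
        Nat.not_succ_le_self, if_false]
      fin_cases b <;> simp [h0, h1]
    by_cases h2 : m ≤ N
    · rw [hx m (by omega)]
      simp [T, col, step, h.ne', h2, show ¬m ≤ t b by omega, show ¬m + 1 ≤ t b by omega,
        show m ≤ N + 1 by omega]
      omega
    by_cases h3 : m ≤ 2 * N
    · rw [hx m (by omega)]
      have e : T t N b c m = .lv (2 * N + 1 - m) b := by
        simp only [T]; split_ifs <;> first | omega | rfl | (congr 1; omega)
      rw [e]
      simp [T, col, step, h2, h3, show ¬m + 1 ≤ t b by omega, show 2 * N + 1 - m ≠ 0 by omega]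
      omega
    by_cases h4 : m = 2 * N + 1
    · rw [hx m (by omega)]
      have e : T t N b c m = .lv 0 b := by
        simp only [T]; split_ifs <;> first | omega | rfl | (congr 1; omega)
      rw [e]
      simp only [T, col, h2, h3, show ¬m + 1 ≤ t b by omega, if_false, Nat.add_le_add_iff_right]
      fin_cases b <;> fin_cases c <;> simp [step]
    · simp only [T, show ¬m ≤ t b by omega, show ¬m + 1 ≤ t b by omega, if_false,
        show ¬m ≤ N + 1 by omega, show ¬m ≤ 2 * N + 1 by omega, h2, h3, Nat.add_le_add_iff_right]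
      split_ifs <;> rfl

def nd' (N : ℕ) (x : Fin 2 × ℕ) : Fin 2 × ℕ := (if x.2 = N + 1 then 0 else x.1, min x.2 (2 * N + 2))

def nd (N : ℕ) (c : Fin 2) (j : ℕ) : Set.range (nd' N) := ⟨_, (c, j), rfl⟩

lemma nd_eq {N : ℕ} {b c : Fin 2} {i j : ℕ} (h : nd N b i = nd N c j) (hj : j ≤ 2 * N + 1) :
    i = j ∧ (j ≠ N + 1 → b = c) := by
  simp only [nd, nd', Subtype.ext_iff, Prod.ext_iff] at h
  have : i = j := by omega
  subst this
  exact ⟨rfl, fun k => by simpa [k] using h.1⟩

theorem chr (k : ℕ) : ¬Mem W k True := by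
  classical
  intro H
  obtain ⟨i, p, hp, per⟩ : ∃ i p, 0 < p ∧ ∀ f : Fin k → Fin k, ∀ n ≥ i, f^[n + p] = f^[n] := by
    obtain ⟨a, b, ne, h⟩ := Finite.exists_ne_map_eq_of_infinite
      fun (n : ℕ) (f : Fin k → Fin k) => f^[n]
    wlog lt : a < b generalizing a b
    · exact this b a ne.symm h.symm (by omega)
    refine ⟨a, b - a, by omega, fun f n hn => ?_⟩
    rw [show n + (b - a) = n - a + b by omega, Function.iterate_add, ← congrFun h f,
      ← Function.iterate_add, show n - a + a = n by omega]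
  have hn : i + p < 2 ^ (i + p) := Nat.lt_two_pow_self
  let t : Fin 2 → ℕ := ![2 ^ (i + p) + p, 2 ^ (i + p)]
  let N := 2 ^ (i + p) + p + i
  have h0 : ¬∃ j, t 0 = 2 ^ j := by
    rintro ⟨j, hj⟩
    have a : 2 ^ (i + p) < 2 ^ j := by rw [← hj]; simp [t, hp]
    have b : 2 ^ j < 2 ^ (i + p + 1) := by rw [← hj, pow_succ]; simp [t]; omega
    rw [Nat.pow_lt_pow_iff_right (by norm_num)] at a b
    omega
  have ht : ∀ b, t b ≤ N := fun b => by fin_cases b <;> simp [t, N]; omega
  have : Finite (Set.range (nd' N)) := Set.Finite.subset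
    ((Set.finite_univ (α := Fin 2)).prod (Set.finite_Iic (2 * N + 2))) (by
      rintro _ ⟨x, rfl⟩; simp [nd'])
  have : Nonempty (Set.range (nd' N)) := ⟨nd N 0 0⟩
  let ed := fun c j => (nd N c j, col t N c j, nd N c (j + 1))
  let E := Set.range fun x : Fin 2 × ℕ => ed x.1 x.2
  have hL : ∀ c, nd N c (N + 1) = nd N 0 (N + 1) := fun c => by simp [nd, nd']
  obtain ⟨S, m, δ, hS, hc, hb, ho⟩ := H _ {nd N 0 (N + 1)} E (by
    rintro ⟨_, x, rfl⟩; exact ⟨_, ⟨x, rfl⟩, rfl⟩)
  have pl : ∀ b c j, ed (if j ≤ N then b else c) j ∈ E ∧ (ed (if j ≤ N then b else c) j).2.2 =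
      (ed (if j + 1 ≤ N then b else c) (j + 1)).1 := fun b c j => by
    refine ⟨⟨(_, j), rfl⟩, ?_⟩
    simp only [ed]
    split_ifs <;> first | rfl | omega | (rw [show j = N by omega, hL b, hL c])
  have pre : ∀ b c, (List.range (N + 1)).map (fun j => ed (if j ≤ N then b else c) j) =
      (List.range (N + 1)).map (ed b) := fun b c => List.map_congr_left fun j hj => by
    rw [if_pos (by have := List.mem_range.1 hj; omega)]
  have pa : ∀ b, Path E (nd N b 0) ((List.range (N + 1)).map (ed b)) (nd N 0 (N + 1)) := fun b => by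
    have := path_of (pl b b) (N + 1)
    simpa [ed, hL b] using this
  have win : ∀ b, Wins W {nd N 0 (N + 1)} E S (nd N b 0) := fun b => by
    refine ho _ ⟨fun _ _ => ed b (N + 1), fun u l v _ hv => ⟨⟨(b, _), rfl⟩, (hL b).trans hv.symm⟩,
      fun e he n => ?_⟩
    have key : ∀ j ≤ 2 * N + 1, e j = ed b j := fun j hj => by
      have aux : ∀ j ≤ 2 * N + 1, (e j).1 = nd N b j → e j = ed b j := fun j hj h => by
        by_cases c : j = N + 1
        · rw [(he.2 j).2.2 (by rw [h, c]; exact hL b), c]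
        · obtain ⟨⟨x, y⟩, hx⟩ := (he.2 j).1
          obtain ⟨rfl, r⟩ := nd_eq ((congrArg Prod.fst hx).trans h) hj
          rw [← hx, ← r c]
      induction j with
      | zero => exact aux _ hj he.1
      | succ j ih => exact aux _ hj (by rw [← (he.2 j).2.1, ih (by omega)])
    rw [run_eq h0 ⟨_, rfl⟩ ht b b _ fun j hj => by rw [key j hj, ite_self]]
    simp only [T]
    split_ifs <;> simp
  let f : Fin 5 → Fin k → Fin k := fun c x => if h : ∃ e ∈ E, e.2.1 = c then δ x h.choose else x
  have hf : ∀ e ∈ E, ∀ x, δ x e = f e.2.1 x := fun e he x => by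
    have h : ∃ e' ∈ E, e'.2.1 = e.2.1 := ⟨e, he, rfl⟩
    simp only [f, dif_pos h]
    exact hc trivial x _ he _ h.choose_spec.1 h.choose_spec.2.symm
  have mem : ∀ b, ∀ j ≤ N + 1, ((List.range j).map (ed b)).foldl δ m =
      if j ≤ t b then (f 0)^[j] m else (f 0)^[j - t b - 1] (f 2 ((f 0)^[t b] m)) := by
    intro b j hj
    induction j with
    | zero => simp
    | succ j ih =>
      rw [List.range_succ, List.map_append, List.foldl_append, ih (by omega)]
      simp only [List.map_cons, List.map_nil, List.foldl_cons, List.foldl_nil]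
      rw [hf _ ⟨(b, j), rfl⟩]
      simp only [ed, col, show j ≤ N by omega, if_true]
      rcases lt_trichotomy j (t b) with h | h | h
      · simp [h.le, h.ne, Nat.succ_le_of_lt h, Function.iterate_succ_apply']
      · simp [h]
      · rw [if_neg h.ne', if_neg (by omega), if_neg (by omega),
          show j + 1 - t b - 1 = j - t b - 1 + 1 by omega, Function.iterate_succ_apply']
  have same : S (nd N 0 0) ((List.range (N + 1)).map (ed 0)) =
      S (nd N 1 0) ((List.range (N + 1)).map (ed 1)) := by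
    refine hb _ _ _ _ _ (pa 0) (pa 1) rfl ?_
    rw [mem 0 _ le_rfl, mem 1 _ le_rfl, if_neg (by have := ht 0; omega),
      if_neg (by have := ht 1; omega), show N + 1 - t 0 - 1 = i by simp [t, N]; omega,
      show N + 1 - t 1 - 1 = i + p by simp [t, N]; omega, per _ _ le_rfl,
      show t 0 = t 1 + p from rfl, per _ (t 1) (by simp [t]; omega)]
  obtain ⟨⟨⟨c, y⟩, hy⟩, h2⟩ := hS _ _ _ (pa 0) rfl
  obtain ⟨rfl, -⟩ := nd_eq ((congrArg Prod.fst hy).trans h2) (by omega)
  obtain ⟨b, hbc, hb⟩ : ∃ b, b ≠ c ∧ S (nd N b 0) ((List.range (N + 1)).map (ed b)) =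
      ed c (N + 1) := by
    fin_cases c
    · exact ⟨1, by simp, same.symm.trans hy.symm⟩
    · exact ⟨0, by simp, hy.symm⟩
  refine win b (fun j => ed (if j ≤ N then b else c) j) ⟨by simp [ed], fun j =>
    ⟨(pl b c j).1, (pl b c j).2, fun h => ?_⟩⟩ (2 * N + 2) ?_
  · obtain ⟨rfl, -⟩ := nd_eq h (by omega)
    rw [pre, hb]
    simp
  · rw [run_eq h0 ⟨_, rfl⟩ ht b c _ fun j _ => rfl]
    have := ht b
    simp only [T]
    split_ifs <;> first | omega | rfl

theorem result : ∃ W : Set (ℕ → Fin 5),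
    (∃ F : Set (List (Fin 5)), W = {x | ∀ n, (List.range n).map x ∉ F}) ∧
      Mem W 2 False ∧ ∀ k, ¬Mem W k True :=
  ⟨W, ⟨{l | l.foldl step (.lv 0 0) = .dead}, rfl⟩, gen, chr⟩

end Pool.Agent.Results.MP_674d90_lc.Safety
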